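import Mathlib
import Pool.Agent.W773.Hardy.A15

set_option autoImplicit false
open MeasureTheory Set
open scoped ContDiff

/-!
# The best constant in the weighted Hardy inequality with weight `(1+|x|²)^α`

For all `n ≥ 3` and all real `α ≠ -(n-2)/2`:
* `C(α,n) = 2n(α-1)` for `α ≥ (n+2)/2`;
* `C(α,n) = (n+2α-2)²/4` for `-(n+2)/2 ≤ α ≤ (n+2)/2`;
* `C(α,n) = -4α-2n` for `-n ≤ α ≤ -(n+2)/2`;
* `C(α,n) = -2α` for `α ≤ -n`.
-/

namespace Pool.Agent.Results.MP_5b99fd_an.BestConstant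

/-- `∫ (1+|x|²)^α |∇u|² dx` over `ℝⁿ`. -/
noncomputable def energy (n : ℕ) (α : ℝ) (u : EuclideanSpace ℝ (Fin n) → ℝ) : ℝ :=
  ∫ x, (1 + ‖x‖ ^ 2) ^ α * ‖gradient u x‖ ^ 2

/-- `∫ (1+|x|²)^(α-1) u² dx` over `ℝⁿ`. -/
noncomputable def mass (n : ℕ) (α : ℝ) (u : EuclideanSpace ℝ (Fin n) → ℝ) : ℝ :=
  ∫ x, (1 + ‖x‖ ^ 2) ^ (α - 1) * u x ^ 2

/-- The class `𝒜_α`: nonzero `u ∈ C_c^∞(ℝⁿ)`, which satisfy in addition
`∫ (1+|x|²)^(α-1) u dx = 0` when `α < -(n-2)/2`. -/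
def Admissible (n : ℕ) (α : ℝ) (u : EuclideanSpace ℝ (Fin n) → ℝ) : Prop :=
  ContDiff ℝ ∞ u ∧ HasCompactSupport u ∧ u ≠ 0 ∧
    (α < -((n : ℝ) - 2) / 2 → ∫ x, (1 + ‖x‖ ^ 2) ^ (α - 1) * u x = 0)

/-- The set of all quotients. -/
def quotients (n : ℕ) (α : ℝ) : Set ℝ :=
  {q | ∃ u, Admissible n α u ∧ q = energy n α u / mass n α u}

/-- The best constant `C(α,n)`. -/
noncomputable def C (α : ℝ) (n : ℕ) : ℝ := sInf (quotients n α)

open Pool.Agent.W773.Hardy in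
theorem energy_eq (n : ℕ) (α : ℝ) (u : EuclideanSpace ℝ (Fin n) → ℝ) :
    energy n α u = num α u := by
  unfold energy num D
  have h : ∀ x, ‖gradient u x‖ = ‖fderiv ℝ u x‖ := fun x => grad_norm u x
  simp only [h]

open Pool.Agent.W773.Hardy in
theorem glb (n : ℕ) (hn : 3 ≤ n) (α v : ℝ) (hv : 0 ≤ v)
    (hlow : ∀ u : EuclideanSpace ℝ (Fin n) → ℝ, Adm α u → v * den α u ≤ num α u)
    (hup : ∀ c : ℝ, 0 ≤ c → (∀ u : EuclideanSpace ℝ (Fin n) → ℝ, Adm α u →
      c * den α u ≤ num α u) → c ≤ v) :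
    (quotients n α).Nonempty ∧ BddBelow (quotients n α) ∧ C α n = v := by
  have hpos : ∀ u : EuclideanSpace ℝ (Fin n) → ℝ, Admissible n α u → 0 < den α u := fun u hu =>
    den_pos hu.1.continuous hu.2.1 hu.2.2.1
  have hne : (quotients n α).Nonempty := by
    obtain ⟨u, hu⟩ := exists_adm (n := n) (by omega) α
    exact ⟨_, u, hu, rfl⟩
  have hlb : v ∈ lowerBounds (quotients n α) := by
    rintro q ⟨u, hu, rfl⟩
    rw [energy_eq, show mass n α u = den α u from rfl, le_div_iff₀ (hpos u hu)]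
    exact hlow u hu
  have hbd : BddBelow (quotients n α) := ⟨v, hlb⟩
  refine ⟨hne, hbd, ?_⟩
  have h1 : v ≤ C α n := le_csInf hne hlb
  refine le_antisymm (hup _ (hv.trans h1) fun u hu => ?_) h1
  have h2 : C α n ≤ energy n α u / mass n α u := csInf_le hbd ⟨u, hu, rfl⟩
  rwa [energy_eq, show mass n α u = den α u from rfl, le_div_iff₀ (hpos u hu)] at h2

/-- The best constant for all `n ≥ 3` and all `α ≠ -(n-2)/2`. (The set of quotients is nonempty and
bounded below, so `C(α,n)` is its greatest lower bound.) -/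
theorem result (n : ℕ) (hn : 3 ≤ n) (α : ℝ) (hα : α ≠ -((n : ℝ) - 2) / 2) :
    (quotients n α).Nonempty ∧ BddBelow (quotients n α) ∧
    (((n : ℝ) + 2) / 2 ≤ α → C α n = 2 * n * (α - 1)) ∧
    (-((n : ℝ) + 2) / 2 ≤ α → α ≤ ((n : ℝ) + 2) / 2 → C α n = ((n : ℝ) + 2 * α - 2) ^ 2 / 4) ∧
    (-(n : ℝ) ≤ α → α ≤ -((n : ℝ) + 2) / 2 → C α n = -4 * α - 2 * n) ∧
    (α ≤ -(n : ℝ) → C α n = -2 * α) := by
  have hn' : (3 : ℝ) ≤ n := by exact_mod_cast hn
  have hn1 : 1 ≤ n := by omega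
  -- the middle range
  have hkap : -((n : ℝ) + 2) / 2 ≤ α → α ≤ ((n : ℝ) + 2) / 2 →
      (quotients n α).Nonempty ∧ BddBelow (quotients n α) ∧
        C α n = ((n : ℝ) + 2 * α - 2) ^ 2 / 4 := by
    intro h1 h2
    refine glb n hn α _ (by positivity)
      (fun u hu => Pool.Agent.W773.Hardy.kappa_case hn hα h1 h2 hu) fun c hc hc' => ?_
    rcases lt_or_gt_of_ne hα with h | h
    · exact Pool.Agent.W773.Hardy.upper_kappa' hn1 hc h hc'
    · exact Pool.Agent.W773.Hardy.upper_kappa hn1 (not_lt.2 h.le) hc'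
  have hlin : ((n : ℝ) + 2) / 2 ≤ α →
      (quotients n α).Nonempty ∧ BddBelow (quotients n α) ∧ C α n = 2 * n * (α - 1) := by
    intro h1
    rcases h1.eq_or_lt with h | h
    · obtain ⟨a, b, c⟩ := hkap (by linarith) h.ge
      refine ⟨a, b, ?_⟩
      rw [c, ← h]
      ring
    · refine glb n hn α _ (by nlinarith) (fun u hu => ?_) fun c _ hc' => ?_
      · exact Pool.Agent.W773.Hardy.lower_lin (hu.1.of_le (by exact_mod_cast le_top)) hu.2.1
      · exact Pool.Agent.W773.Hardy.upper_lin hn1 h hc'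
  have hquad : -(n : ℝ) ≤ α → α ≤ -((n : ℝ) + 2) / 2 →
      (quotients n α).Nonempty ∧ BddBelow (quotients n α) ∧ C α n = -4 * α - 2 * n := by
    intro h1 h2
    rcases h2.eq_or_lt with h | h
    · obtain ⟨a, b, c⟩ := hkap h.ge (by linarith)
      refine ⟨a, b, ?_⟩
      rw [c, h]
      ring
    · exact glb n hn α _ (by linarith)
        (fun u hu => Pool.Agent.W773.Hardy.quad_case hn h1 h2 hu)
        fun c _ hc' => Pool.Agent.W773.Hardy.upper_quad hn1 h hc'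
  have hlin' : α ≤ -(n : ℝ) →
      (quotients n α).Nonempty ∧ BddBelow (quotients n α) ∧ C α n = -2 * α := by
    intro h1
    exact glb n hn α _ (by linarith)
      (fun u hu => Pool.Agent.W773.Hardy.lin_case hn h1 hu)
      fun c _ hc' => Pool.Agent.W773.Hardy.upper_lin' (by omega) h1 hc'
  have hall : (quotients n α).Nonempty ∧ BddBelow (quotients n α) := by
    rcases le_total (((n : ℝ) + 2) / 2) α with h | h
    · exact ⟨(hlin h).1, (hlin h).2.1⟩
    · rcases le_total (-((n : ℝ) + 2) / 2) α with h' | h'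
      · exact ⟨(hkap h' h).1, (hkap h' h).2.1⟩
      · rcases le_total (-(n : ℝ)) α with h'' | h''
        · exact ⟨(hquad h'' h').1, (hquad h'' h').2.1⟩
        · exact ⟨(hlin' h'').1, (hlin' h'').2.1⟩
  exact ⟨hall.1, hall.2, fun h => (hlin h).2.2, fun h h' => (hkap h h').2.2,
    fun h h' => (hquad h h').2.2, fun h => (hlin' h).2.2⟩

end Pool.Agent.Results.MP_5b99fd_an.BestConstant
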